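import Mathlib
import Pool.Agent.H184R3.SP.FinalAll

set_option autoImplicit false

namespace Pool.Agent.Results.MP_ff7b28_co.AllAlphabets

/-- For every real `C > 1` there is `ε > 0` such that for all large `k` some word of length at most
`(1/2 - ε) k²` over an alphabet of `⌊C k⌋` letters contains every permutation of length `k` as a
pattern. In particular `f(k; Ck) ≥ (1/2 - o(1)) k²` fails for every `C > 1`. -/
theorem result : ∀ C : ℝ, 1 < C → ∃ ε : ℝ, 0 < ε ∧ ∃ K : ℕ, ∀ k : ℕ, K ≤ k → ∃ w : List ℕ,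
    (∀ x ∈ w, x < ⌊C * (k : ℝ)⌋₊) ∧
    (∀ σ : Equiv.Perm (Fin k), ∃ e : Fin k → Fin w.length,
          StrictMono e ∧ ∀ i j : Fin k, (w.get (e i) < w.get (e j) ↔ σ i < σ j)) ∧
    (w.length : ℝ) ≤ (1 / 2 - ε) * ((k : ℝ) ^ 2) :=
  fun C hC => Pool.Agent.H184R3.SP.main_all C hC

end Pool.Agent.Results.MP_ff7b28_co.AllAlphabets
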